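import Pool.Agent.Lib.MP_f51cdd_lc.Seu.Fin2

/-!
A first-order theory in finitely many variables that holds in every representable relation
algebra and fails in every finite non-representable relation algebra.
-/

namespace Pool.Agent.Variants.MP_f51cdd_lc.AFiniteCase

open Pool.Agent.Lib.MP_f51cdd_lc Pool.Agent.Lib.MP_f51cdd_lc.Seu

theorem result : ∃ (n : ℕ) (T : Set (Fm n)), (∀ φ ∈ T, φ.free = ∅) ∧
    (∀ (A : Type) [BooleanAlgebra A] [RelAlg A], IsRRA A → ∀ φ ∈ T, Models A φ) ∧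
    ∀ (A : Type) [BooleanAlgebra A] [RelAlg A] [Finite A], (∀ φ ∈ T, Models A φ) → IsRRA A := by
  obtain ⟨n, hn⟩ := exists_scott
  refine ⟨n, {φ | φ.free = ∅ ∧ ∀ (A : Type) [BooleanAlgebra A] [RelAlg A], IsRRA A → Models A φ},
    fun φ h => h.1, fun A _ _ hA φ h => h.2 A hA, fun A _ _ _ hT => ?_⟩
  obtain ⟨φ, h1, h2, h3⟩ := hn A
  by_contra hA
  refine hT (.imp φ .fls) ⟨by simp [Fm.free, h1], fun B _ _ hB β hβ => hA ?_⟩ (fun _ => ⊥) (h2 _)
  exact (h3 B fun β' => (φ.sat_congr (by simp [h1])).1 hβ).isRRA hB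

end Pool.Agent.Variants.MP_f51cdd_lc.AFiniteCase
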